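import Pool.Agent.Helper28.NL.All

/-!
# Invariant sets in almost all of a short interval

`T n = n / d` if `d ∣ n`, `T n = (m n - r_j) / d` if `n ≡ j (mod d)`, `1 ≤ j ≤ d - 1`, as in the problem file; here `d = 2`, `m = 3`, `R = {r}`, `r = 1` or
`r = -1` (the `3x - 1` and the `3x + 1` map). A set `G` of integers is invariant if `n ∈ G ↔ T n ∈ G` for all `n > 0`; such a set has a natural density `D`
(`PositiveDensity`), e.g. `G` = the set of the integers whose orbit reaches `1`, or does not.

If `G` is invariant and `D > 0`, then for all `θ < 1` and `ε > 0` a positive proportion (`≥ c D`) of the `n` has the property that all but `ε n ^ θ` of the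
integers of `[n, n + n ^ θ]` belong to `G` and their orbits are at one point after one number `t ≤ 9 log n` of steps. Hence all positive integers reach `1` under
the `3x + 1` map if and only if for almost all `n` at least `ε n ^ θ` of the integers of `[n, n + n ^ θ]` do, and `E(2, 3, R)` is finite if and only if for some `B`
for almost all `n` at least `ε n ^ θ` of the orbits which begin in `[n, n + n ^ θ]` go `≤ B`.

Proof. `Helper28/NL`: for all intervals `[a, a + L)` the `T`-th iterates of all but few of the integers are where they should be (`Loc`, `LocV`: steps of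
`c log x` digits, `Step`, `FlowS`, Tao's estimate for the distribution of the end points of the words modulo `3 ^ S`; the number of the odd steps is
controlled by an exponential moment, `Pot`). `Helper8/SI`: the orbits of a pair of integers at a distance `≤ exp (c √(log x))` merge in `C log x` steps with a
positive probability which does not depend on the number of the digits (`Mp`), and if the particles at the two ends of an interval have merged then so have almost
all particles between them (`Cr`, `Gs`); the level of distribution of invariant sets (`PowerIntervals`) gives `G` at the point at which they meet.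
-/

set_option autoImplicit false

namespace Pool.Agent.Helper28.FIN.ShortIntervals

open Pool.Agent.Helper68.Moeller Pool.Agent.Helper8 Pool.Agent.Helper28 Pool.Agent.Helper28.NL
  Pool.Agent.Helper8.ND Pool.Agent.Helper91 Filter Topology

/-- The natural density (in the positive integers). -/
def HasDensity (A : Set ℤ) (D : ℝ) : Prop :=
  Tendsto (fun x : ℝ => ({n : ℤ | n ∈ A ∧ 0 < n ∧ (n : ℝ) ≤ x}.ncard : ℝ) / x) atTop (𝓝 D)

/-- `G` is invariant under `T`, in the positive integers. -/
def Inv (d m : ℕ) (r : ℤ → ℤ) (G : Set ℤ) : Prop := ∀ n : ℤ, 0 < n → (n ∈ G ↔ T d m r n ∈ G)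

/-- The number of the `n ∈ [x, 2x)` with the property `P`. -/
noncomputable def num (P : ℤ → Prop) (x : ℝ) : ℝ := ({n : ℤ | x ≤ n ∧ (n : ℝ) < 2 * x ∧ P n}.ncard : ℝ)

/-- The number of the `h ∈ [0, H]` with the property `P`. -/
noncomputable def win (P : ℤ → Prop) (H : ℝ) : ℝ := ({h : ℤ | 0 ≤ h ∧ (h : ℝ) ≤ H ∧ P h}.ncard : ℝ)

/-- **Invariant sets in short intervals.** -/
theorem result : ∀ θ ε : ℝ, 0 < θ → θ < 1 → 0 < ε → ε ≤ 1 →
    (∀ r : ℤ → ℤ, Admissible 2 3 r → r 1 = 1 ∨ r 1 = -1 →
      (∃ c : ℝ, 0 < c ∧ ∀ D : ℝ, 0 < D → ∃ X : ℝ, ∀ G : Set ℤ, Inv 2 3 r G → HasDensity G D → ∀ x : ℝ, X ≤ x →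
        c * D * x ≤ num (fun n => ∃ (t : ℕ) (v : ℤ), (t : ℝ) ≤ 9 * Real.log n ∧
          win (fun h => ¬ (n + h ∈ G ∧ (T 2 3 r)^[t] (n + h) = v)) ((n : ℝ) ^ θ) ≤ ε * (n : ℝ) ^ θ) x) ∧
      ((E 2 3 r).Finite ↔ ∃ B : ℝ, HasDensity {n : ℤ | ε * (n : ℝ) ^ θ ≤
        win (fun h => ∃ t : ℕ, ((T 2 3 r)^[t] (n + h) : ℝ) ≤ B) ((n : ℝ) ^ θ)} 1)) ∧
    -- the map `3x + 1`
    ((∀ n : ℤ, 0 < n → ∃ t : ℕ, (T 2 3 (fun _ => -1))^[t] n = 1) ↔ HasDensity {n : ℤ | ε * (n : ℝ) ^ θ ≤
      win (fun h => ∃ t : ℕ, (T 2 3 (fun _ => -1))^[t] (n + h) = 1) ((n : ℝ) ^ θ)} 1) := by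
  intro θ ε hθ0 hθ1 hε hε1
  refine ⟨?_, ?_⟩
  · intro r hr hρ
    have hT : T 2 3 r = T 2 3 (fun _ => r 1) := CO.T_eq
    have hstd := std_of hr
    have hstd1 := std_of (adm_const hr)
    refine ⟨?_, SI.exc_short hρ hstd (level_of hstd1) (flow_of hstd1) hθ0 hθ1 hε hε1⟩
    obtain ⟨c, hc, h⟩ := SI.inv_windows hρ hstd1 (level_of hstd1) (flow_of hstd1) hθ0 hθ1 hε
    refine ⟨c, hc, fun D hD => ?_⟩
    obtain ⟨X, hX⟩ := h D hD
    refine ⟨X, fun G hG hGD x hx => ?_⟩
    have h1 := hX G (fun n hn => by rw [← hT]; exact hG n hn) hGD x hx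
    rw [← hT] at h1
    exact h1
  · have hstd := POSB.std_three
    obtain ⟨h1, h2⟩ := SI.three_short (level_of hstd) (flow_of hstd) hθ0 hθ1
    exact h1 ε hε hε1

end Pool.Agent.Helper28.FIN.ShortIntervals
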